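import Pool.Agent.Lib.MP_c7af3c_ag.GEN.Groups
import Pool.Agent.Lib.MP_c7af3c_ag.GEN.H96.Sfrac
import Pool.Agent.Lib.MP_c7af3c_ag.GEN.H17.Stens

/-!
# MP_c7af3c_ag, project GEN, module GRAT: values of functions on `A × A` at pairs of
`K`-rational points
-/

set_option autoImplicit false

namespace Pool.Agent.Gen.H72

open AlgebraicGeometry CategoryTheory CategoryTheory.Limits
open Pool.Agent.Gen

section

variable {k K' : Type} [Field k] [Field K'] [Algebra k K']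

/-- values of the constants -/
theorem kval_cst {Y : Scheme.{0}} (y : Spec (CommRingCat.of K') ⟶ Y)
    (q : Y ⟶ Spec (CommRingCat.of k)) (hq : y ≫ q = Spec.map (CommRingCat.ofHom (algebraMap k K')))
    (W : Y.Opens) (h : ⊤ ≤ y ⁻¹ᵁ W) (c : k) : kval y W h (cst q W c) = algebraMap k K' c := by
  have h1 := H96.kval_comp y q ⊤ W le_top h le_top
    ((Scheme.ΓSpecIso (CommRingCat.of k)).inv.hom c)
  unfold cst
  rw [← h1]
  have h2 : ∀ (t : Spec (CommRingCat.of K') ⟶ Spec (CommRingCat.of k))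
      (_ : t = Spec.map (CommRingCat.ofHom (algebraMap k K')))
      (g : Γ(Spec (CommRingCat.of k), ⊤)), kval t ⊤ le_top g
        = algebraMap k K' ((Scheme.ΓSpecIso (CommRingCat.of k)).hom.hom g) := by
    intro t ht g
    subst ht
    have h3 := congrArg (fun m => m.hom g)
      (Scheme.ΓSpecIso_naturality (CommRingCat.ofHom (algebraMap k K')))
    simp only [CommRingCat.hom_comp, RingHom.comp_apply, CommRingCat.hom_ofHom] at h3
    rw [← h3]
    unfold kval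
    congr 1
  rw [h2 _ hq]
  have := congrArg (fun m => m.hom c) (Scheme.ΓSpecIso (CommRingCat.of k)).inv_hom_id
  exact congrArg (algebraMap k K') this

variable {A Z : Scheme.{0}} {a : A ⟶ Spec (CommRingCat.of k)} (Ch : Charts a) (p q : Z ⟶ A)

/-- the property of a function -/
def GoodFn (K' : Type) [Field K'] [Algebra k K'] (W : Z.Opens) (S : Set Z) (u : Γ(Z, W)) : Prop :=
  ∃ T : Set k, T.Finite ∧ ∀ K : Subfield K', (∀ t ∈ T, algebraMap k K' t ∈ K) →
    ∀ y : Spec (CommRingCat.of K') ⟶ Z,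
      y ≫ p ≫ a = Spec.map (CommRingCat.ofHom (algebraMap k K')) →
      Ch.IsRat K (y ≫ p) → Ch.IsRat K (y ≫ q) → ∀ h : ⊤ ≤ y ⁻¹ᵁ W,
      ∀ x : (Spec (CommRingCat.of K') : Scheme.{0}), y.base x ∈ S → kval y W h u ∈ K

/-- the subring of the good functions -/
noncomputable def goodSub (K' : Type) [Field K'] [Algebra k K'] (W : Z.Opens) :
    Subring Γ(Z, W) where
  carrier := {u | GoodFn Ch p q K' W Set.univ u}
  mul_mem' := by
    rintro u v ⟨T, hT, h1⟩ ⟨T', hT', h2⟩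
    refine ⟨T ∪ T', hT.union hT', ?_⟩
    intro K hK y hy hp hq h x hx
    have h3 := h1 K (fun t ht => hK t (Or.inl ht)) y hy hp hq h x hx
    have h4 := h2 K (fun t ht => hK t (Or.inr ht)) y hy hp hq h x hx
    rw [H96.kval_eq] at h3 h4 ⊢
    rw [map_mul]
    exact mul_mem h3 h4
  one_mem' := by
    refine ⟨∅, Set.finite_empty, ?_⟩
    intro K hK y hy hp hq h x hx
    rw [H96.kval_eq, map_one]
    exact one_mem _
  add_mem' := by
    rintro u v ⟨T, hT, h1⟩ ⟨T', hT', h2⟩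
    refine ⟨T ∪ T', hT.union hT', ?_⟩
    intro K hK y hy hp hq h x hx
    have h3 := h1 K (fun t ht => hK t (Or.inl ht)) y hy hp hq h x hx
    have h4 := h2 K (fun t ht => hK t (Or.inr ht)) y hy hp hq h x hx
    rw [H96.kval_eq] at h3 h4 ⊢
    rw [map_add]
    exact add_mem h3 h4
  zero_mem' := by
    refine ⟨∅, Set.finite_empty, ?_⟩
    intro K hK y hy hp hq h x hx
    rw [H96.kval_eq, map_zero]
    exact zero_mem _
  neg_mem' := by
    rintro u ⟨T, hT, h1⟩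
    refine ⟨T, hT, ?_⟩
    intro K hK y hy hp hq h x hx
    have h3 := h1 K hK y hy hp hq h x hx
    rw [H96.kval_eq] at h3 ⊢
    rw [map_neg]
    exact neg_mem h3

/-- all functions coming from a chart through one of the projections are good -/
theorem good_side (K' : Type) [Field K'] [Algebra k K'] (W : Z.Opens) (r : Z ⟶ A)
    (hr : ∀ (K : Subfield K') (y : Spec (CommRingCat.of K') ⟶ Z),
      y ≫ p ≫ a = Spec.map (CommRingCat.ofHom (algebraMap k K')) →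
      Ch.IsRat K (y ≫ p) → Ch.IsRat K (y ≫ q) →
      y ≫ r ≫ a = Spec.map (CommRingCat.ofHom (algebraMap k K')) ∧ Ch.IsRat K (y ≫ r))
    (i : Ch.I) (e : W ≤ r ⁻¹ᵁ Ch.U i) (b : Γ(A, Ch.U i)) :
    (r.appLE (Ch.U i) W e).hom b ∈ goodSub Ch p q K' W := by
  have h1 : (goodSub Ch p q K' W).comap (r.appLE (Ch.U i) W e).hom = ⊤ := by
    apply Ch.gen i
    · intro g hg
      refine ⟨∅, Set.finite_empty, ?_⟩
      intro K hK y hy hp hq h x hx
      have h2 : ⊤ ≤ (y ≫ r) ⁻¹ᵁ Ch.U i := fun z hz => e (h hz)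
      rw [← H96.kval_comp y r (Ch.U i) W e h h2 g]
      exact (hr K y hy hp hq).2 i h2 g hg
    · intro c
      refine ⟨{c}, Set.finite_singleton c, ?_⟩
      intro K hK y hy hp hq h x hx
      have h2 : ⊤ ≤ (y ≫ r) ⁻¹ᵁ Ch.U i := fun z hz => e (h hz)
      rw [← H96.kval_comp y r (Ch.U i) W e h h2 _, kval_cst (y ≫ r) a (by
        rw [Category.assoc]
        exact (hr K y hy hp hq).1) (Ch.U i) h2 c]
      exact hK c rfl
  have h3 : b ∈ (goodSub Ch p q K' W).comap (r.appLE (Ch.U i) W e).hom := h1 ▸ Subring.mem_top b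
  exact h3

theorem good_prod (K' : Type) [Field K'] [Algebra k K'] (H : IsPullback p q a a) (i j : Ch.I) :
    goodSub Ch p q K' (p ⁻¹ᵁ Ch.U i ⊓ q ⁻¹ᵁ Ch.U j) = ⊤ := by
  have hiso := isIso_pushoutSection_of_isAffineOpen H (US := ⊤) (UT := Ch.U j) (UX := Ch.U i)
    le_top le_top (rfl : p ⁻¹ᵁ Ch.U i ⊓ q ⁻¹ᵁ Ch.U j = p ⁻¹ᵁ Ch.U i ⊓ q ⁻¹ᵁ Ch.U j)
    (isAffineOpen_top _) (Ch.aff j) (Ch.aff i)
  have hPO := (isIso_pushoutSection_iff H (US := ⊤) (UT := Ch.U j) (UX := Ch.U i)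
    le_top le_top (rfl : p ⁻¹ᵁ Ch.U i ⊓ q ⁻¹ᵁ Ch.U j = p ⁻¹ᵁ Ch.U i ⊓ q ⁻¹ᵁ Ch.U j)).1 hiso
  apply H17.pushout_top hPO
  · intro b
    exact good_side Ch p q K' _ p (fun K y hy hp hq => ⟨hy, hp⟩) i _ b
  · intro b
    exact good_side Ch p q K' _ q (fun K y hy hp hq => ⟨by rw [← H.w]; exact hy, hq⟩) j _ b

theorem affine_prod (H : IsPullback p q a a) (i j : Ch.I) :
    IsAffineOpen (p ⁻¹ᵁ Ch.U i ⊓ q ⁻¹ᵁ Ch.U j) := by
  have h1 : IsAffine (Ch.U i) := Ch.aff i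
  have h2 : IsAffine (Ch.U j) := Ch.aff j
  have h3 : IsAffine ((⊤ : (Spec (CommRingCat.of k)).Opens) : Scheme.{0}) := isAffineOpen_top _
  exact .of_isIso (Scheme.Hom.isPullback_resLE H (US := ⊤) (UT := Ch.U j) (UX := Ch.U i)
    le_top le_top rfl).isoPullback.hom

theorem local_good (K' : Type) [Field K'] [Algebra k K'] (H : IsPullback p q a a) (V : Z.Opens)
    (f : Γ(Z, V)) (z : Z) (hz : z ∈ V) :
    ∃ (D : Z.Opens), z ∈ D ∧ GoodFn Ch p q K' V D.carrier f := by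
  obtain ⟨i, hi⟩ := Ch.cover (p.base z)
  obtain ⟨j, hj⟩ := Ch.cover (q.base z)
  have hW : IsAffineOpen (p ⁻¹ᵁ Ch.U i ⊓ q ⁻¹ᵁ Ch.U j) := affine_prod Ch p q H i j
  have hzW : z ∈ p ⁻¹ᵁ Ch.U i ⊓ q ⁻¹ᵁ Ch.U j := ⟨hi, hj⟩
  have hgood := good_prod Ch p q K' H i j
  set W := p ⁻¹ᵁ Ch.U i ⊓ q ⁻¹ᵁ Ch.U j with hWdef
  obtain ⟨g, hgV, hzg⟩ := hW.exists_basicOpen_le (V := V) ⟨z, hz⟩ hzW
  have hDW : Z.basicOpen g ≤ W := Scheme.basicOpen_le _ g
  have hloc := hW.isLocalization_basicOpen g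
  have hu := hloc.surj
  obtain ⟨n, b, hb⟩ := hu ((Z.presheaf.map (homOfLE hgV).op).hom f)
  have hga : b ∈ goodSub Ch p q K' W := hgood ▸ Subring.mem_top b
  have hgg : g ∈ goodSub Ch p q K' W := hgood ▸ Subring.mem_top g
  obtain ⟨T1, hT1, ha1⟩ := hga
  obtain ⟨T2, hT2, hg2⟩ := hgg
  refine ⟨Z.basicOpen g, hzg, T1 ∪ T2, hT1.union hT2, ?_⟩
  intro K hK y hy hp hq h x hx
  have hD : ⊤ ≤ y ⁻¹ᵁ Z.basicOpen g := by
    intro w _
    have hw : w = x := Subsingleton.elim (α := PrimeSpectrum K') _ _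
    subst hw
    exact hx
  have hWs : ⊤ ≤ y ⁻¹ᵁ W := le_trans hD (fun x hx => hDW hx)
  have e1 := H96.kval_res y V _ hgV hD h f
  have e2 := H96.kval_res y W _ hDW hD hWs g
  have e3 := H96.kval_res y W _ hDW hD hWs b
  have hne : kval y W hWs g ≠ 0 := by
    rw [← e2, H96.kval_eq]
    have hun : IsUnit ((Z.presheaf.map (homOfLE hDW).op).hom g) :=
      IsLocalization.Away.algebraMap_isUnit (S := Γ(Z, Z.basicOpen g)) g
    exact (hun.map (H96.kvalHom y _ hD)).ne_zero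
  have e4 := congrArg (kval y _ hD) hb
  have e5 : kval y V h f * kval y W hWs g ^ n = kval y W hWs b := by
    rw [← e1, ← e2, ← e3, H96.kval_eq, H96.kval_eq, H96.kval_eq, ← map_pow, ← map_mul]
    exact e4
  have e6 : kval y V h f = kval y W hWs b * (kval y W hWs g ^ n)⁻¹ := by
    rw [← e5, mul_assoc, mul_inv_cancel₀ (pow_ne_zero n hne), mul_one]
  have h3 := ha1 K (fun t ht => hK t (Or.inl ht)) y hy hp hq hWs x trivial
  have h4 := hg2 K (fun t ht => hK t (Or.inr ht)) y hy hp hq hWs x trivial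
  rw [e6]
  exact mul_mem h3 (inv_mem (pow_mem h4 n))

theorem good_V (K' : Type) [Field K'] [Algebra k K'] (H : IsPullback p q a a) (V : Z.Opens)
    (hV : IsCompact V.carrier) (f : Γ(Z, V)) : GoodFn Ch p q K' V V.carrier f := by
  apply IsCompact.induction_on (p := fun S => GoodFn Ch p q K' V S f) hV
  · refine ⟨∅, Set.finite_empty, ?_⟩
    intro K hK y hy hp hq h x hx
    exact absurd hx (Set.notMem_empty _)
  · rintro S S' hSS ⟨T, hT, h3⟩
    exact ⟨T, hT, fun K hK y hy hp hq h x hx => h3 K hK y hy hp hq h x (hSS hx)⟩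
  · rintro S S' ⟨T, hT, h3⟩ ⟨T', hT', h4⟩
    refine ⟨T ∪ T', hT.union hT', ?_⟩
    intro K hK y hy hp hq h x hx
    rcases hx with hx | hx
    · exact h3 K (fun t ht => hK t (Or.inl ht)) y hy hp hq h x hx
    · exact h4 K (fun t ht => hK t (Or.inr ht)) y hy hp hq h x hx
  · intro z hz
    obtain ⟨D, hzD, h3⟩ := local_good Ch p q K' H V f z hz
    exact ⟨D.carrier, mem_nhdsWithin_of_mem_nhds (D.isOpen.mem_nhds hzD), h3⟩

end

/-- Module GRAT. -/
theorem grat : GratStatement := by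
  intro k K' _ _ _ A Z a Ch p q H W hW f
  obtain ⟨T, hT, h3⟩ := good_V Ch p q K' H W hW f
  refine ⟨T, hT, ?_⟩
  intro K hK y hy hp hq h
  have hx : (default : PrimeSpectrum K') ∈ (⊤ : (Spec (CommRingCat.of K')).Opens) := trivial
  exact h3 K hK y hy hp hq h _ (h hx)

end Pool.Agent.Gen.H72
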